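import Pool.Agent.H887.BK.E10

/-!
# Bloch-Kato ordinary reduction of almost all hypersurfaces

Let `K` be a number field and `X ⊂ P ^ (n - 1)` a smooth hypersurface of degree `d ≥ 2` over `K`. Let `v` be a
place of good reduction with residue field of `p` elements, and `det (1 - T Frob) = ∑ c_m T ^ m` the
characteristic polynomial of the Frobenius on the primitive part of the cohomology in degree `n - 2`; it
is computed by the numbers `N_r` of points of the affine cone over the extensions of degree `r`:
it is `exp (- ∑ s_r T ^ r / r)` with `s_r = (-1) ^ n (N_r - p ^ (r (n - 1))) / (p ^ r - 1)`. The reduction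
is ordinary in the sense of Bloch and Kato if and only if the Newton polygon of this polynomial is the Hodge
polygon (the other cohomology groups are of type `(i, i)`, the crystalline cohomology is torsion free and the
Hodge to de Rham spectral sequence degenerates). This is our definition `Ordinary`; so ALL slopes are
considered, not only the slope `0` (Hasse-Witt matrix).

**Families.** `Z` is a set of monomials of degree `d` which contains the pure powers `x_i ^ d`: all
monomials (then we have the family of all hypersurfaces of degree `d`), `x_0 ^ d` and the monomials in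
`x_1, …, x_(n - 1)` (cyclic covers of degree `d` of projective space branched along hypersurfaces of
degree `d`), the pure powers and `x_0 ⋯ x_(n - 1)` (the Dwork family, `d = n`), or anything between.
The parameters are `t = (t_(u, a))`, `u ∈ Z`, `a < h`, and

  `f_t = ∑_(u ∈ Z) (∑_a ω_a t_(u, a)) x ^ u`

for fixed `ω_a ∈ 𝓞 K` that are not all zero (such as an integral basis, or `ω = 1`). Let `N = h |Z|` be the
number of the parameters.

**Theorem.**

1. For `ε > 0` and all but finitely many places `v` of prime norm `p = 1` modulo `d`, at most `ε p ^ N`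
   of the `p ^ N` residue classes `t` are such that the hypersurface `f_t = 0` does not have good ordinary
   reduction at `v`.
2. For `η > 0` and `0 < θ < 1` there is `A` such that for all `t ∈ [1, X] ^ N` but at most
   `A (X ^ N / Q₀ ^ (1 - θ) + X ^ (N - 1) Q₁ ^ (1 + θ))`, and for ALL `Q` with `Q₀ ≤ Q ≤ Q₁`, the places
   of good ordinary reduction of `f_t = 0` are at least the proportion `1 / [K(μ_d) : K] - η` of ALL places
   with `N v ≤ Q`.

So 100 percent of all hypersurfaces, ordered by the size of the coefficients, are ordinary in the sense of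
Bloch and Kato at a set of places of density at least `1 / [K(μ_d) : K] - η` (at least `1 - η` if `K` contains the
`d`-th roots of unity), at all scales from `Q₀` to `Q₁`, for `Q₀ → ∞` and `Q₁ = X ^ (1 - 2 θ)`, say.
What was known: the generic hypersurface in characteristic `p` is ordinary (Koblitz, Illusie), so that
there are `O(p ^ N)` exceptions; curves, abelian surfaces and K3 surfaces; and Hasse-Witt ordinarity (slope
`0` only) for almost all members of families (the library of results, and the hand-in
`CompleteIntersections`), which determines the Newton polygon only in dimension at most `2`.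

## Proof

**Dwork's theory.** Files `H425` (by helper425, for another result) contain Dwork's trace formula: the kernels
`F = ∏ θ(c_s x ^ s)` with Dwork's splitting function `θ(z) = exp (π (z - z ^ p))`, the rescaling by a root
`λ` of `π`, the commutation of the operators `ψ ∘ F` and `x_i ∂_i + …`, the finite matrix `B` of
Frobenius on the monomials `x ^ u`, `u_i < d - 1`, modulo the images of the operators `∂_i + ∂_i H`. From
it we get the formula for the projective hypersurface (`H935/BK/PT.lean`), the divisibility of the row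
`u` of `B` by `λ ^ ((p - 1) |u + 1|) = (- p) ^ (|u + 1| / d)` and a formula for the residues (`H795/BK/Res.lean`):
the reduced matrix `b` is rational in the coefficients, with numerator of degree `O(p)` and with denominators
the discriminants (`det LM`). The determinants of its blocks `|u + 1| ≤ j` are the higher Hasse invariants: if
they are not zero, the Newton polygon is the Hodge polygon (`H333/BK/New.lean`, `H887/BK/E8.lean`).

**The fundamental matrix.** For `H_T = ∑ a_i x_i ^ d + T g`, `g` mixed, let `Y(T)` be the matrix over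
`ℚ(a, c)[[T]]` of the map `x ^ u ↦ exp (T g) x ^ u` modulo the images of `∂_i + ∂_i H_0`. Then
`Y(T ^ p) B(T) = β Y(T)` at Teichmueller points, where `β` is diagonal for `p = 1` modulo `d`
(`H227/BK/KID.lean`, `H200/BK/KExp.lean`, `H887/BK/E2.lean`). From it the minors of the blocks
`|u + 1| ≤ j` of `Y` are integral at `p`, and modulo `p` the higher Hasse invariant is the product of the
minor `V_j(T)` of `Y` and of a series in `T ^ p` (`H694/BK/Min.lean`, `H887/BK/E4.lean`).

**Stepanov's method.** `V_j` is a power series over a ring of finite type, independent of `p`, and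
satisfies a linear differential equation (`H860/BK/Ode.lean`). The soft Stepanov theorem of the
library says that a polynomial of degree `O(p)` which is the product of its reduction modulo `p` and of a
series with derivative zero has at most `ε p` zeros in the field with `p` elements, for `p ≥ p₀(ε)`. It is applied
over the ring of all polynomials in `1 / a_i, c_s` with integral values at Teichmueller points
(`H887/BK/E5.lean`, `E6.lean`), and the lines `T ↦ (a, T c)` are put together in `E9.lean`.
Part 2 follows from part 1 by the density of the places of norm `1` modulo `d` (Chebotarev) and by the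
large sieve at all scales, as in the library (`H887/BK/Sieve.lean`).

The parts were proved by helper200, helper227, helper333, helper337, helper539, helper694, helper747,
helper795, helper860 and helper935.
-/

set_option autoImplicit false

open Finset MvPolynomial NumberField IsDedekindDomain

namespace Pool.Agent.Results.MP_17d720_ag.BlochKato

/-- The number of points of the affine cone `f = 0` with coordinates in the extension of degree `r`
of the finite field `k`. -/
noncomputable def pts {k : Type} [Field k] {n : ℕ} (f : MvPolynomial (Fin n) k) (r : ℕ) : ℕ :=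
  Nat.card {ξ : Fin n → AlgebraicClosure k //
    (∀ i, ξ i ^ Nat.card k ^ r = ξ i) ∧ aeval ξ f = 0}

/-- The trace of the `r`-th power of the Frobenius on the primitive cohomology of the smooth
hypersurface `f = 0` in the projective space of dimension `n - 1`. -/
noncomputable def trFrob {k : Type} [Field k] {n : ℕ} (f : MvPolynomial (Fin n) k) (r : ℕ) : ℚ :=
  (-1) ^ n * ((pts f r : ℚ) - (Nat.card k : ℚ) ^ (r * (n - 1))) / ((Nat.card k : ℚ) ^ r - 1)

/-- `∑ c_m T ^ m = exp (- ∑ trFrob f r T ^ r / r)` is the characteristic polynomial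
`det (1 - T Frob)` of the Frobenius on the primitive cohomology (this determines `c`). -/
def IsCharPoly {k : Type} [Field k] {n : ℕ} (f : MvPolynomial (Fin n) k) (c : ℕ → ℚ) : Prop :=
  c 0 = 1 ∧ ∀ m : ℕ, ((m : ℚ) + 1) * c (m + 1) =
    -∑ i ∈ range (m + 1), trFrob f (i + 1) * c (m - i)

/-- The primitive Hodge number `h ^ (n - 2 - i, i)` of the smooth hypersurfaces of degree `d` in the
projective space of dimension `n - 1`. -/
def hodge (n d i : ℕ) : ℕ :=
  (univ.filter fun u : Fin n → Fin (d - 1) => ∑ j, ((u j : ℕ) + 1) = (i + 1) * d).card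

/-- The Newton polygon of the characteristic polynomial of the Frobenius on the primitive cohomology
is the Hodge polygon, that is the hypersurface `f = 0` of degree `d` over the field `k` with `p`
elements is ordinary in the sense of Bloch and Kato: the points `(m, v_p(c_m))` are not below the
lines of slope `j` which support the Hodge polygon, and the vertices
`(∑_(i < j) h_i, ∑_(i < j) i h_i)` of the Hodge polygon are among them. -/
def Ordinary {k : Type} [Field k] {n : ℕ} (d : ℕ) (f : MvPolynomial (Fin n) k) : Prop :=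
  ∃ c : ℕ → ℚ, IsCharPoly f c ∧
    (∀ m, ∑ i ∈ range n, hodge n d i < m → c m = 0) ∧
    (∀ m j : ℕ, c m ≠ 0 → (j : ℤ) * m - ∑ i ∈ range j, ((j : ℤ) - i) * hodge n d i ≤
      padicValRat (Nat.card k) (c m)) ∧
    ∀ j : ℕ, c (∑ i ∈ range j, hodge n d i) ≠ 0 ∧
      padicValRat (Nat.card k) (c (∑ i ∈ range j, hodge n d i)) =
        ∑ i ∈ range j, (i : ℤ) * hodge n d i

/-- The partial derivatives of `f` have no common zero except the origin. -/
def Smooth {k : Type} [Field k] {n : ℕ} (f : MvPolynomial (Fin n) k) : Prop :=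
  ∀ ξ : Fin n → AlgebraicClosure k, (∀ i, aeval ξ (pderiv i f) = 0) → ξ = 0

/-- The indices of the parameters: a monomial of `Z` and an index `a < h`. -/
abbrev Param {n : ℕ} (Z : Finset (Fin n →₀ ℕ)) (h : ℕ) := {u // u ∈ Z} × Fin h

/-- The form whose coefficient at `x ^ u`, `u ∈ Z`, is `∑_a ω_a t_(u, a)`. -/
noncomputable def member {K : Type} [Field K] [NumberField K] {n h : ℕ}
    (Z : Finset (Fin n →₀ ℕ)) (ω : Fin h → 𝓞 K) (t : Param Z h → ℕ) : MvPolynomial (Fin n) (𝓞 K) :=
  ∑ u : {u // u ∈ Z}, monomial u.1 (∑ a, ω a * (t (u, a) : 𝓞 K))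

/-- The hypersurface `F = 0` of degree `d` has good ordinary reduction at the place `v` of prime
norm. -/
def GoodOrdinary {K : Type} [Field K] [NumberField K] {n : ℕ} (d : ℕ)
    (F : MvPolynomial (Fin n) (𝓞 K)) (v : HeightOneSpectrum (𝓞 K)) : Prop :=
  (Ideal.absNorm v.asIdeal).Prime ∧
    Smooth (map (algebraMap (𝓞 K) v.asIdeal.ResidueField) F) ∧
    Ordinary d (map (algebraMap (𝓞 K) v.asIdeal.ResidueField) F)

open Classical in
/-- Modulo almost all places of prime norm `p = 1` modulo `d` there are few members without good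
ordinary reduction. -/
def FewModPlaces {K : Type} [Field K] [NumberField K] {n h : ℕ} (d : ℕ)
    (Z : Finset (Fin n →₀ ℕ)) (ω : Fin h → 𝓞 K) : Prop :=
  ∀ ε : ℝ, 0 < ε → {v : HeightOneSpectrum (𝓞 K) | (Ideal.absNorm v.asIdeal).Prime ∧
    d ∣ Ideal.absNorm v.asIdeal - 1 ∧
    ε * (Ideal.absNorm v.asIdeal : ℝ) ^ Fintype.card (Param Z h) <
      (((Fintype.piFinset fun _ : Param Z h => range (Ideal.absNorm v.asIdeal)).filter
        fun t => ¬ GoodOrdinary d (member Z ω t) v).card : ℝ)}.Finite

/-- Almost all members have good ordinary reduction at the proportion `1 / [K(μ_d) : K] - η` of all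
places, at all scales between `Q₀` and `Q₁`. -/
def AllScales {K : Type} [Field K] [NumberField K] {n h : ℕ} (d : ℕ)
    (Z : Finset (Fin n →₀ ℕ)) (ω : Fin h → 𝓞 K) : Prop :=
  ∀ η : ℝ, 0 < η → ∀ θ : ℝ, 0 < θ → θ < 1 → ∃ A : ℝ, ∀ X Q₀ Q₁ : ℕ, 1 ≤ Q₀ →
    ({t : Param Z h → ℕ | (∀ i, 1 ≤ t i ∧ t i ≤ X) ∧ ∃ Q, Q₀ ≤ Q ∧ Q ≤ Q₁ ∧
      (Nat.card {v : HeightOneSpectrum (𝓞 K) // Ideal.absNorm v.asIdeal ≤ Q ∧
        GoodOrdinary d (member Z ω t) v} : ℝ) <
      (1 / (Module.finrank K (CyclotomicField d K) : ℝ) - η) *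
        Nat.card {v : HeightOneSpectrum (𝓞 K) // Ideal.absNorm v.asIdeal ≤ Q}}.ncard : ℝ) ≤
    A * ((X : ℝ) ^ Fintype.card (Param Z h) * (Q₀ : ℝ) ^ (θ - 1) +
      (X : ℝ) ^ (Fintype.card (Param Z h) - 1) * (Q₁ : ℝ) ^ (1 + θ))

open Pool.Agent.H887.BK in
lemma hodge_eq (n e i : ℕ) : hodge n (e + 1) i = hdg (Fin n) e i := by
  unfold hodge hdg
  have h : ∀ u : Fin n → Fin e, ∑ j, ((u j : ℕ) + 1) = wt u := by
    intro u
    rw [sum_add_distrib, sum_const, smul_eq_mul, mul_one, card_univ, wt, bdeg]
  change (univ.filter fun u : Fin n → Fin e => ∑ j, ((u j : ℕ) + 1) = (i + 1) * (e + 1)).card = _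
  simp only [h]

open Pool.Agent.H887.BK in
lemma trFrob_eq {k : Type} [Field k] {n : ℕ} (hn : 1 ≤ n) (f : MvPolynomial (Fin n) k) (p : ℕ)
    (hp : p.Prime) (hk : Nat.card k = p) (r : ℕ) :
    trFrob f (r + 1) = (Sta (Fin n) p (map (algebraMap k (AlgebraicClosure k)) f) (r + 1) : ℚ) /
      (((p : ℚ) ^ (r + 1) - 1) * (p : ℚ) ^ (r + 1)) := by
  have h1 : pts f (r + 1) = Npts p (map (algebraMap k (AlgebraicClosure k)) f) (r + 1) := by
    unfold pts Npts
    rw [hk]
    simp only [aeval_def, eval_map]
  have hp0 : (p : ℚ) ≠ 0 := by exact_mod_cast hp.ne_zero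
  rw [trFrob, Sta, h1, hk, Fintype.card_fin]
  push_cast
  have h2 : (p : ℚ) ^ ((r + 1) * n) = (p : ℚ) ^ (r + 1) * (p : ℚ) ^ ((r + 1) * (n - 1)) := by
    rw [← pow_add]
    congr 1
    obtain ⟨m, rfl⟩ : ∃ m, n = m + 1 := ⟨n - 1, by omega⟩
    rw [Nat.add_sub_cancel]
    ring
  rw [h2, ← mul_sub, mul_left_comm, mul_comm ((p : ℚ) ^ (r + 1) - 1), mul_div_mul_left]
  exact pow_ne_zero _ hp0

open Pool.Agent.H887.BK in
lemma goodOrdinary_of_nice {K : Type} [Field K] [NumberField K] {n h e : ℕ} (hn : 1 ≤ n)
    (he : 0 < e) (Z : Sup (Fin n) e) (ω : Fin h → 𝓞 K) (v : HeightOneSpectrum (𝓞 K)) (p : ℕ)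
    [hp : Fact p.Prime] (hv : Ideal.absNorm v.asIdeal = p) (hp1 : p ≡ 1 [MOD (e + 1)])
    (hge : P0 (Fin n) e ≤ p) (φ : ZMod p →+* v.asIdeal.ResidueField) (t : Param Z.S h → ℕ)
    (c : Par Z → ZMod p)
    (hc : ∀ u, φ (c u) = algebraMap (𝓞 K) v.asIdeal.ResidueField (∑ a, ω a * (t (u, a) : 𝓞 K)))
    (hN : Nice p e he c) : GoodOrdinary (e + 1) (member Z.S ω t) v := by
  classical
  have hne : Nonempty (Fin n) := ⟨⟨0, hn⟩⟩
  have hcard : Nat.card v.asIdeal.ResidueField = p := by
    rw [Pool.Agent.Q267.DC.card_res, hv]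
  have hchar : CharP v.asIdeal.ResidueField p := by
    have := Pool.Agent.Q267.OD.charP_res v (by rw [hv]; exact hp.out)
    rwa [hv] at this
  set k := v.asIdeal.ResidueField with hk
  have hcharb : CharP (AlgebraicClosure k) p :=
    charP_of_injective_algebraMap (algebraMap k (AlgebraicClosure k)).injective p
  set ψ : ZMod p →+* AlgebraicClosure k := (algebraMap k (AlgebraicClosure k)).comp φ with hψ
  have hN' : Nice p e he (fun u => ψ (c u)) := Nice_map he ψ c hN
  have hform : map (algebraMap k (AlgebraicClosure k)) (map (algebraMap (𝓞 K) k)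
      (member Z.S ω t)) = ∑ u : Par Z, monomial u.1 (ψ (c u)) := by
    rw [member, map_sum, map_sum]
    refine sum_congr rfl fun u _ => ?_
    rw [map_monomial, map_monomial, ← hc u]
    rfl
  obtain ⟨h1, C, hC0, hC1, hC2, hC3, hC4⟩ := nice_good he hp1 hge (fun u => ψ (c u))
    (fun u => by rw [← map_pow, ZMod.pow_card]) hN'
  rw [← hform] at h1 hC1
  rw [Fintype.card_fin] at hC2
  simp only [← hodge_eq] at hC2 hC3 hC4
  refine ⟨by rw [hv]; exact hp.out, ?_, C, ⟨hC0, ?_⟩, hC2, ?_, ?_⟩
  · intro ξ hξ
    apply h1 ξ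
    intro i
    rw [pderiv_map, eval_map]
    exact hξ i
  · intro m
    rw [hC1 m]
    congr 1
    refine sum_congr rfl fun i _ => ?_
    rw [trFrob_eq hn _ p hp.out hcard]
  · intro m j hm
    rw [hcard]
    refine le_trans (le_of_eq ?_) (hC3 m j hm)
    push_cast
    congr 1
    refine sum_congr rfl fun i hi => ?_
    rw [Nat.cast_sub (mem_range.1 hi).le]
    ring
  · intro j
    refine ⟨(hC4 j).1, ?_⟩
    rw [hcard, (hC4 j).2]
    push_cast
    exact sum_congr rfl fun i _ => mul_comm _ _

lemma preimage_card {A B : Type} [AddCommGroup A] [Fintype A] [AddCommGroup B] [Fintype B]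
    [DecidableEq B] (L : A →+ B) (hL : Function.Surjective L) (S : Finset B) :
    (univ.filter fun a => L a ∈ S).card * Fintype.card B = S.card * Fintype.card A := by
  classical
  set m := (univ.filter fun a : A => L a = 0).card with hm
  have hfib : ∀ b, (univ.filter fun a : A => L a = b).card = m := by
    intro b
    exact AddMonoidHom.card_fiber_eq_of_mem_range L (hL b) (hL 0)
  have h1 : (univ.filter fun a => L a ∈ S).card = S.card * m := by
    rw [card_eq_sum_card_fiberwise (s := univ.filter fun a => L a ∈ S) (t := S) (f := L)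
      (fun a ha => (mem_filter.1 ha).2)]
    rw [← smul_eq_mul, ← sum_const]
    refine sum_congr rfl fun b hb => ?_
    rw [← hfib b, filter_filter]
    congr 1
    refine filter_congr fun a _ => ?_
    constructor
    · exact fun h => h.2
    · rintro rfl
      exact ⟨hb, rfl⟩
  have h2 : Fintype.card A = Fintype.card B * m := by
    rw [← card_univ, card_eq_sum_card_fiberwise (s := (univ : Finset A)) (t := (univ : Finset B))
      (f := L) (fun a _ => mem_univ _), ← card_univ, ← smul_eq_mul, ← sum_const]
    exact sum_congr rfl fun b _ => hfib b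
  rw [h1, h2]
  ring

lemma map_member {K : Type} [Field K] [NumberField K] {n h : ℕ} (Z : Finset (Fin n →₀ ℕ))
    (ω : Fin h → 𝓞 K) (v : HeightOneSpectrum (𝓞 K)) (hv : (Ideal.absNorm v.asIdeal).Prime)
    (t : Param Z h → ℕ) : map (algebraMap (𝓞 K) v.asIdeal.ResidueField) (member Z ω t) =
      map (algebraMap (𝓞 K) v.asIdeal.ResidueField)
        (member Z ω fun j => t j % Ideal.absNorm v.asIdeal) := by
  have := Pool.Agent.Q267.OD.charP_res v hv
  rw [member, member, map_sum, map_sum]
  refine sum_congr rfl fun u _ => ?_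
  rw [map_monomial, map_monomial]
  congr 1
  rw [map_sum, map_sum]
  refine sum_congr rfl fun a _ => ?_
  rw [map_mul, map_mul, map_natCast, map_natCast]
  congr 1
  exact (CharP.natCast_eq_natCast' _ (Ideal.absNorm v.asIdeal) (Nat.mod_modEq _ _)).symm

open Pool.Agent.H887.BK in
open Classical in
lemma few_places {K : Type} [Field K] [NumberField K] {n h e : ℕ} (hn : 1 ≤ n)
    (he : 0 < e) (Z : Sup (Fin n) e) (ω : Fin h → 𝓞 K) (a₀ : Fin h) (ha₀ : ω a₀ ≠ 0)
    (ε : ℝ) (hε : 0 < ε) :
    {v : HeightOneSpectrum (𝓞 K) | (Ideal.absNorm v.asIdeal).Prime ∧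
      (e + 1) ∣ Ideal.absNorm v.asIdeal - 1 ∧
      ¬ (((Fintype.piFinset fun _ : Param Z.S h => range (Ideal.absNorm v.asIdeal)).filter
        fun t => ¬ GoodOrdinary (e + 1) (member Z.S ω t) v).card : ℝ) ≤
        ε * (Ideal.absNorm v.asIdeal : ℝ) ^ Fintype.card (Param Z.S h)}.Finite := by
  obtain ⟨p₀, hp₀⟩ := few_all he Z ε hε
  refine ((Pool.Agent.W352.ChAbs.finite_le (K := K) (max p₀ (P0 (Fin n) e))).union
    (Pool.Agent.Q267.OD.finite_mem (K := K) _ ha₀)).subset ?_
  rintro v ⟨hv, hdv, hv'⟩
  by_contra hno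
  rw [Set.mem_union, not_or] at hno
  obtain ⟨hno1, hno2⟩ := hno
  have hno1' : ¬ Ideal.absNorm v.asIdeal ≤ max p₀ (P0 (Fin n) e) := hno1
  have hno2' : ω a₀ ∉ v.asIdeal := hno2
  apply hv'
  obtain ⟨p, hp⟩ : ∃ p, p = Ideal.absNorm v.asIdeal := ⟨_, rfl⟩
  rw [← hp] at hv hdv hno1' ⊢
  push Not at hno1'
  have hfact : Fact p.Prime := ⟨hv⟩
  have hchar := Pool.Agent.Q267.OD.charP_res v (by rw [← hp]; exact hv)
  rw [← hp] at hchar
  have hcard : Nat.card v.asIdeal.ResidueField = p := by
    rw [Pool.Agent.Q267.DC.card_res, hp]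
  have hp1 : p ≡ 1 [MOD (e + 1)] := ((Nat.modEq_iff_dvd' hv.one_le).2 hdv).symm
  set φ : ZMod p →+* v.asIdeal.ResidueField := ZMod.castHom (dvd_refl p) _ with hφ
  have hfin : Finite v.asIdeal.ResidueField := Nat.finite_of_card_ne_zero (by
    rw [hcard]; exact hv.ne_zero)
  have hbij : Function.Bijective φ := by
    have := Fintype.ofFinite v.asIdeal.ResidueField
    rw [Fintype.bijective_iff_injective_and_card]
    refine ⟨φ.injective, ?_⟩
    rw [ZMod.card, ← Nat.card_eq_fintype_card, hcard]
  choose w hw using fun a : Fin h => hbij.2 (algebraMap (𝓞 K) v.asIdeal.ResidueField (ω a))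
  have hw0 : w a₀ ≠ 0 := by
    intro h0
    have h1 := hw a₀
    rw [h0, map_zero] at h1
    exact hno2' (Ideal.algebraMap_residueField_eq_zero.1 h1.symm)
  let L : (Param Z.S h → ZMod p) →+ (Par Z → ZMod p) :=
    { toFun := fun t u => ∑ a, w a * t (u, a)
      map_zero' := by
        funext u
        simp
      map_add' := by
        intro s t
        funext u
        simp only [Pi.add_apply, mul_add, sum_add_distrib] }
  have hL : Function.Surjective L := by
    intro c
    refine ⟨fun i => if i.2 = a₀ then (w a₀)⁻¹ * c i.1 else 0, ?_⟩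
    funext u
    change ∑ a, w a * (if a = a₀ then (w a₀)⁻¹ * c u else 0) = c u
    rw [sum_eq_single a₀]
    · rw [if_pos rfl, ← mul_assoc, mul_inv_cancel₀ hw0, one_mul]
    · intro a _ ha
      rw [if_neg ha, mul_zero]
    · intro h'
      exact absurd (mem_univ _) h'
  set B : Finset (Par Z → ZMod p) := univ.filter fun c => ¬ Nice p e he c with hB
  have hBc := hp₀ p (by omega) hp1 B (fun c hc => (mem_filter.1 hc).2)
  have hpre := preimage_card L hL B
  rw [Fintype.card_fun, Fintype.card_fun, ZMod.card] at hpre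
  set Bad := (Fintype.piFinset fun _ : Param Z.S h => range p).filter
        fun t => ¬ GoodOrdinary (e + 1) (member Z.S ω t) v with hBad
  have hinj : Set.InjOn (fun (t : Param Z.S h → ℕ) (i : Param Z.S h) => (t i : ZMod p)) Bad := by
    intro a ha b hb hab
    have ha' := (mem_filter.mp (mem_coe.mp ha)).1
    have hb' := (mem_filter.mp (mem_coe.mp hb)).1
    rw [Fintype.mem_piFinset] at ha' hb'
    funext i
    exact CharP.natCast_injOn_Iio (ZMod p) p
      (Set.mem_Iio.mpr (mem_range.mp (ha' i))) (Set.mem_Iio.mpr (mem_range.mp (hb' i)))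
      (congrFun hab i)
  have hsub : Bad.image (fun (t : Param Z.S h → ℕ) (i : Param Z.S h) => (t i : ZMod p)) ⊆
      univ.filter fun τ => L τ ∈ B := by
    intro τ hτ
    obtain ⟨t, ht, rfl⟩ := mem_image.1 hτ
    rw [mem_filter, hB, mem_filter]
    refine ⟨mem_univ _, mem_univ _, fun hN => (mem_filter.1 ht).2 ?_⟩
    refine goodOrdinary_of_nice hn he Z ω v p hp.symm hp1 (by omega) φ t _ (fun u => ?_) hN
    change φ (∑ a, w a * (t (u, a) : ZMod p)) = _
    rw [map_sum, map_sum]
    refine sum_congr rfl fun a _ => ?_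
    rw [map_mul, map_mul, hw, map_natCast, map_natCast]
  have h1 : Bad.card ≤ (univ.filter fun τ => L τ ∈ B).card := by
    rw [← card_image_of_injOn hinj]
    exact card_le_card hsub
  have hpp : (0 : ℝ) < (p : ℝ) ^ Fintype.card (Par Z) := by
    have : (0 : ℝ) < p := by exact_mod_cast hv.pos
    positivity
  have h2 : ((univ.filter fun τ => L τ ∈ B).card : ℝ) * (p : ℝ) ^ Fintype.card (Par Z) =
      B.card * (p : ℝ) ^ Fintype.card (Param Z.S h) := by
    exact_mod_cast hpre
  have h3 : ((univ.filter fun τ => L τ ∈ B).card : ℝ) * (p : ℝ) ^ Fintype.card (Par Z) ≤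
      (ε * (p : ℝ) ^ Fintype.card (Param Z.S h)) * (p : ℝ) ^ Fintype.card (Par Z) := by
    rw [h2]
    calc (B.card : ℝ) * (p : ℝ) ^ Fintype.card (Param Z.S h) ≤
        (ε * (p : ℝ) ^ Fintype.card (Par Z)) * (p : ℝ) ^ Fintype.card (Param Z.S h) :=
          mul_le_mul_of_nonneg_right hBc (by positivity)
      _ = _ := by ring
  have h4 := le_of_mul_le_mul_right h3 hpp
  have h5 : (Bad.card : ℝ) ≤ ((univ.filter fun τ => L τ ∈ B).card : ℝ) := by exact_mod_cast h1
  exact h5.trans h4

/-- **Bloch-Kato ordinary reduction of almost all hypersurfaces.** See above. -/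
theorem result (K : Type) [Field K] [NumberField K] (n d h : ℕ) (Z : Finset (Fin n →₀ ℕ))
    (ω : Fin h → 𝓞 K) (hn : 1 ≤ n) (hd : 2 ≤ d) (hZ : ∀ u ∈ Z, u.degree = d)
    (hZ' : ∀ i, Finsupp.single i d ∈ Z) (hω : ∃ a, ω a ≠ 0) :
    FewModPlaces d Z ω ∧ AllScales d Z ω := by
  classical
  obtain ⟨e, rfl⟩ : ∃ e, d = e + 1 := ⟨d - 1, by omega⟩
  have he : 0 < e := by omega
  obtain ⟨a₀, ha₀⟩ := hω
  have hfew := fun ε hε => few_places hn he ⟨Z, hZ', hZ⟩ ω a₀ ha₀ ε hε
  refine ⟨fun ε hε => (hfew ε hε).subset fun v hv => ⟨hv.1, hv.2.1, fun h => ?_⟩,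
    fun η hη θ hθ0 hθ1 => ?_⟩
  · exact absurd (lt_of_lt_of_le hv.2.2 (le_trans (le_of_eq (by congr <;> exact Subsingleton.elim _ _)) h)) (lt_irrefl _)
  · have hnon : Nonempty (Param Z h) := ⟨(⟨_, hZ' ⟨0, hn⟩⟩, a₀)⟩
    refine Pool.Agent.H887.BK.allscalesP (e + 1)
      (fun v t => GoodOrdinary (e + 1) (member Z ω t) v) (fun v hv t => ?_) ?_ η hη θ hθ0 hθ1
    · unfold GoodOrdinary
      rw [map_member Z ω v hv t]
    · intro ε hε
      refine (hfew ε hε).subset fun v hv => ⟨hv.1, hv.2.1, fun h => hv.2.2 ?_⟩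
      exact le_trans (le_of_eq (by congr <;> exact Subsingleton.elim _ _)) h

end Pool.Agent.Results.MP_17d720_ag.BlochKato
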