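import Pool.Agent.H887.CI.Main

/-!
# Ordinary reduction of almost all complete intersections and their double covers

Let `K` be a number field. We look at the varieties

  `X : y_j ^ (m_j) = f_j(x)`, `j = 1, …, r`, `m_j = 1` or `m_j = 2`,

over a product of projective spaces `P^(n_1) × ⋯ × P^(n_s)` with the coordinates `x = (x_(b, i))`; `f_j` is
multi-homogeneous of multi-degree `m_j d_j`, `d_j ∈ ℕ ^ s`. An index `j` with `m_j = 1` stands for
the equation `f_j = 0`, an index with `m_j = 2` for the double cover branched along `f_j = 0`. So for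
`m_j = 1` for all `j` these are all complete intersections of hypersurfaces in products of
projective spaces, such as the canonical curves of genus `3, 4, 5`, all curves on `P^1 × P^1`, the
K3 surfaces of degrees `4, 6, 8` and those in `P^1 × P^2` and `(P^1)^3`, the surfaces of general type and
the Calabi-Yau varieties among them; in general we have their iterated double covers.

**Families.** Let `f_j` be a family over the affine space of dimension `σ`: the coefficients of `f_j` are
polynomials over `𝓞 K` in the parameters `t = (t_i)`. The only conditions are that some member is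
smooth and that some member over `P^σ(K)`, at a point of `K^σ` or at infinity, is an arrangement

  `f_j = (∏_b ∏_(c ≤ d_j(b)) l_(j, b, c)(x_b)) ^ (m_j)`

for linear forms `l_(j, b, c)` in the variables of the block `b` over the algebraic closure, any
`n_b + 1` of which (for all `j` together) are linearly independent.

**Ordinary.** For a set `P` of indices let the Hasse-Witt matrix at a place `v` consist of the
coefficients of `x ^ (N v w - w')` in `∏_(j ∈ P) f_j ^ ((N v - 1) / m_j)`, `w, w'` running through the
exponents with positive entries and multi-degree `∑_(j ∈ P) d_j`. They index a basis of the top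
cohomology of the sheaf `O(- ∑_(j ∈ P) d_j)` on the product of projective spaces, and the matrix is
that of its Frobenius. We call the reduction ordinary if these matrices are invertible for all `P`.
Let all `d_j(b)` be positive. Then the Frobenius is bijective on all cohomology groups of the
structure sheaf of the reduction of `X`: by the characters of the covering group and the Koszul
resolution the top cohomology is the sum, over the sets `P` which contain all `j` with `m_j = 1`, of
the kernels of the multiplications by the `f_j`, `m_j = 1`, on the spaces above, the kernels are stable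
under Frobenius, and the other groups are zero except for `H^0`. The same is true for the varieties
given by some of the equations. For curves and surfaces it implies (for hypersurfaces and for double
covers of products of projective spaces, of dimension at most 2: it is equivalent to) ordinarity in
the sense of Bloch and Kato, by the duality of `B Ω^1` and `B Ω^2`.

**Theorem.** For every such family:

1. For `ε > 0` and all but finitely many places `v` of prime norm `p`, at most `ε p ^ |σ|` of the
   `p ^ |σ|` residue classes `t` are such that `X_t` does not have good ordinary reduction at `v`.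
2. For `η > 0` and `0 < θ < 1` there is `A` such that for all `t ∈ [1, X] ^ σ` but at most
   `A (X ^ |σ| / Q₀ ^ (1 - θ) + X ^ (|σ| - 1) Q₁ ^ (1 + θ))`, and for ALL `Q` with `Q₀ ≤ Q ≤ Q₁`, the places
   of good ordinary reduction of `X_t` are at least the proportion `1 - η` of ALL places `v` with
   `N v ≤ Q`.
3. If `|σ| = 1`: for `η, δ > 0` there is `C` such that if `X ^ δ Q₀ ≤ Q₁`, then for all `1 ≤ t ≤ X` but
   at most `C Q₁` the following holds: for at least the proportion `1 - η` of the scales `Q = 2 ^ j`
   between `Q₀` and `Q₁` the places of good ordinary reduction of `X_t` are at least the proportion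
   `1 - η` of all places of norm at most `Q`.

The family of **all** `(f_1, …, f_r)` of the given multi-degrees, the coefficients being
`∑_a t_a ω_a` for fixed `ω_a ∈ 𝓞 K` that are not all zero (such as an integral basis, or `ω = 1`),
satisfies the conditions, so 1. and 2. hold for it: 100 percent of all complete intersections (and
iterated double covers of complete intersections) in products of projective spaces, ordered by the
size of the coefficients, have good ordinary reduction at a set of places of density at least
`1 - η`, at all scales from `Q₀` to `Q₁`, for `Q₀ → ∞` and `Q₁ = X ^ (1 - 2 θ)`, say.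

## Proof

The case `r = s = 1`, `|σ| = 1` is the theorem `ArrangementPencils` (by other helpers, in the library
of results); in `DensityOne` there are the hypersurfaces and the double covers in weighted projective
spaces in their complete linear systems, and in `MP_db07cb_ag/CompleteIntersections` the one-parameter
families of complete intersections in one projective space (`s = 1`, `|σ| = 1`) with any singularities
and their cyclic covers. Here the number of equations, of blocks of variables and of parameters is
arbitrary, and the families of all complete intersections are included.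

**One polynomial.** The product `F = ∏_(j ∈ P) f_j ^ (2 / m_j)` satisfies `F ^ ((p - 1) / 2) =
∏ f_j ^ ((p - 1) / m_j)`, and at the special member it is the square of an arrangement in general
position. So the Hasse-Witt matrix depends only on `F`, a (singular) form of multi-degree
`2 ∑_(j ∈ P) d_j`.

**The charts.** (`H887/CI/Charts.lean`.) The vertices are the products of the vertices of the
arrangements of the blocks; at such a point the coordinates other than the coordinates number `0` of
the blocks are scaled by `S`. The matrix of the leading terms of the periods is the product of the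
matrices of the blocks, so it is invertible. The soft Stepanov theorem of the library is applied to
the determinant of the periods for these scalings (`H887/CI/Norm.lean`, `Const.lean`, `Soft.lean`).

**Several parameters.** (`H887/CI/Place.lean`, `Count.lean`.) The family is restricted to the lines
`t = τ + s T` through the special point, with a generic direction `T`: the soft Stepanov theorem holds
over the ring of polynomials in `T`, so it gives at most `ε p` zeros `s` on the lines modulo `v`
with direction outside of a hypersurface in the space of the `T`, whose points are counted by the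
Schwartz-Zippel lemma. For arrangements at infinity the family is made homogeneous
(`H887/CI/Inf.lean`).

**The discriminant.** (`H887/CI/Elim.lean`, `Disc.lean`.) The condition to be singular is the
existence of a solution of a system of multi-homogeneous equations (the `f_j` and the minors of the
Jacobian matrix, for every set of indices), and is eliminated by a matrix of Macaulay.

**All complete intersections.** (`H887/CI/Gen.lean`, `Univ.lean`.) The generic complete intersection
is smooth: extend the derivations `∂ / ∂ t` to the algebraic closure of the field generated by the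
parameters (it is formally étale over the ring of the parameters) and apply them to the equation
`f_j(ξ) = 0` at a point `ξ` with `∑ λ_j ∂_i f_j(ξ) = 0`: this gives `λ_j ξ ^ u = 0` for all `u`.
The arrangement with the forms `∑_i z ^ i x_(b, i)`, `z = 0, 1, 2, …`, is in general position
(Vandermonde).

**The sieves.** (`H887/CI/Sieve.lean`.) Parts 2 and 3 follow from part 1 by the large sieve at all
scales, and by the larger sieve, as in the library.
-/

set_option autoImplicit false

open Finset MvPolynomial NumberField IsDedekindDomain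

namespace Pool.Agent.Results.MP_17d720_ag.CompleteIntersections

/-- The coordinates of the product of projective spaces of dimensions `n b`. -/
abbrev Var {s : ℕ} (n : Fin s → ℕ) := (b : Fin s) × Fin (n b + 1)

/-- Multi-homogeneous polynomials of multi-degree `D`. -/
def MultiHom {R : Type} [CommRing R] {s : ℕ} {n : Fin s → ℕ} (D : Fin s → ℕ)
    (f : MvPolynomial (Var n) R) : Prop :=
  ∀ u ∈ f.support, ∀ b, ∑ i, u ⟨b, i⟩ = D b

/-- The linear form in the variables of the block `b` with the coefficients `l`. -/
noncomputable def linForm {R : Type} [CommRing R] {s : ℕ} {n : Fin s → ℕ} (b : Fin s)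
    (l : Fin (n b + 1) → R) : MvPolynomial (Var n) R :=
  ∑ i, C (l i) * X ⟨b, i⟩

/-- The product of the linear forms `l b c`, `c < e b`, over all blocks `b`. -/
noncomputable def arrangement {R : Type} [CommRing R] {s : ℕ} {n e : Fin s → ℕ}
    (l : (b : Fin s) → Fin (e b) → Fin (n b + 1) → R) : MvPolynomial (Var n) R :=
  ∏ b, ∏ c, linForm b (l b c)

/-- In every block any `n b + 1` of the linear forms, for all equations `j` together, are
linearly independent. -/
def GeneralPosition {k : Type} [Field k] {s r : ℕ} {n : Fin s → ℕ} {d : Fin r → Fin s → ℕ}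
    (l : (j : Fin r) → (b : Fin s) → Fin (d j b) → Fin (n b + 1) → k) : Prop :=
  ∀ b, ∀ ρ : Fin (n b + 1) → (j : Fin r) × Fin (d j b), Function.Injective ρ →
    (Matrix.of fun i i' => l (ρ i).1 b (ρ i).2 i').det ≠ 0

/-- Some member of the family `f` over the projective space of the parameters, at a point `τ` with
coordinates in `K` or at infinity in the direction `τ` (where the member is the homogeneous part of
degree `D j` in the parameters, `D j` at least the degree), is the arrangement of the forms `l j`, to
the power `m j`. -/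
def HasArrangement {K : Type} [Field K] [NumberField K] {s r : ℕ} {n : Fin s → ℕ}
    (m : Fin r → ℕ) {d : Fin r → Fin s → ℕ} {σ : Type}
    (f : Fin r → MvPolynomial (Var n) (MvPolynomial σ (𝓞 K)))
    (l : (j : Fin r) → (b : Fin s) → Fin (d j b) → Fin (n b + 1) → AlgebraicClosure K) : Prop :=
  (∃ τ : σ → K, ∀ j, map ((algebraMap K (AlgebraicClosure K)).comp
      (eval₂Hom (algebraMap (𝓞 K) K) τ)) (f j) = arrangement (l j) ^ m j) ∨
  ∃ (D : Fin r → ℕ) (τ : σ → K), (∀ j u, (coeff u (f j)).totalDegree ≤ D j) ∧
    ∀ j u, algebraMap K (AlgebraicClosure K) (eval₂ (algebraMap (𝓞 K) K) τ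
      (homogeneousComponent (D j) (coeff u (f j)))) = coeff u (arrangement (l j) ^ m j)

/-- The variety `y_j ^ (m_j) = f_j` over the product of projective spaces is smooth of codimension
`r`: at each point `ξ` over the algebraic closure where the `f_j` with `m_j = 1` are zero, the
gradients of those `f_j` which vanish at `ξ` are linearly independent. -/
def Smooth {k : Type} [Field k] {s r : ℕ} {n : Fin s → ℕ} (m : Fin r → ℕ)
    (f : Fin r → MvPolynomial (Var n) k) : Prop :=
  ∀ ξ : Var n → AlgebraicClosure k, (∀ b, ∃ i, ξ ⟨b, i⟩ ≠ 0) →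
    (∀ j, m j = 1 → aeval ξ (f j) = 0) →
    LinearIndependent (AlgebraicClosure k) fun (j : {j // aeval ξ (f j) = 0}) (x : Var n) =>
      aeval ξ (pderiv x (f j))

/-- The exponents `w` with positive entries and sum `e b` in the block `b`. -/
abbrev Exps {s : ℕ} (n e : Fin s → ℕ) :=
  {w : (x : Var n) → Fin (e x.1 + 1) // (∀ x, 0 < (w x : ℕ)) ∧ ∀ b, ∑ i, (w ⟨b, i⟩ : ℕ) = e b}

/-- The exponent of the monomial `x ^ w`. -/
noncomputable def expo {s : ℕ} {n : Fin s → ℕ} (w : Var n → ℕ) : Var n →₀ ℕ :=
  Finsupp.equivFunOnFinite.symm w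

/-- The sum of the `d j`, `j ∈ P`. -/
def total {s r : ℕ} (d : Fin r → Fin s → ℕ) (P : Finset (Fin r)) (b : Fin s) : ℕ := ∑ j ∈ P, d j b

/-- The Hasse-Witt matrix of the equations `y_j ^ (m_j) = f_j`, `j ∈ P`, over a field with `q`
elements: the entry with indices `w`, `w'` is the coefficient of `x ^ (q w - w')` in
`∏ f_j ^ ((q - 1) / m_j)`, written as the coefficient of `x ^ (q w)` in `x ^ w' ∏ f_j ^ ((q - 1) / m_j)`. -/
noncomputable def hasseWitt {R : Type} [CommRing R] {s r : ℕ} {n : Fin s → ℕ} (m : Fin r → ℕ)
    (d : Fin r → Fin s → ℕ) (q : ℕ) (P : Finset (Fin r)) (f : Fin r → MvPolynomial (Var n) R) :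
    Matrix (Exps n (total d P)) (Exps n (total d P)) R :=
  Matrix.of fun w w' => coeff (expo fun x => q * (w.1 x : ℕ))
    (monomial (expo fun x => (w'.1 x : ℕ)) 1 * ∏ j ∈ P, f j ^ ((q - 1) / m j))

/-- All Hasse-Witt matrices are invertible. -/
def Ordinary {k : Type} [Field k] {s r : ℕ} {n : Fin s → ℕ} (m : Fin r → ℕ)
    (d : Fin r → Fin s → ℕ) (q : ℕ) (f : Fin r → MvPolynomial (Var n) k) : Prop :=
  ∀ P, (hasseWitt m d q P f).det ≠ 0

/-- The reduction modulo the place `v`. -/
noncomputable def reduction {K : Type} [Field K] [NumberField K] {s r : ℕ} {n : Fin s → ℕ}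
    (v : HeightOneSpectrum (𝓞 K)) (F : Fin r → MvPolynomial (Var n) (𝓞 K)) (j : Fin r) :
    MvPolynomial (Var n) v.asIdeal.ResidueField :=
  map (algebraMap (𝓞 K) v.asIdeal.ResidueField) (F j)

/-- The member of the family at the integers `t`. -/
noncomputable def member {K : Type} [Field K] [NumberField K] {s r : ℕ} {n : Fin s → ℕ}
    {σ : Type} (f : Fin r → MvPolynomial (Var n) (MvPolynomial σ (𝓞 K))) (t : σ → ℕ) (j : Fin r) :
    MvPolynomial (Var n) (𝓞 K) :=
  map (eval fun i => (t i : 𝓞 K)) (f j)

/-- The variety `y_j ^ (m_j) = F_j`, `F_j` of multi-degree `m_j d_j`, has good ordinary reduction at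
`v`: the `m_j` are invertible at `v`, the reduction is smooth and its Hasse-Witt matrices (for all
sets `P` of equations) are invertible. -/
def GoodOrdinary {K : Type} [Field K] [NumberField K] {s r : ℕ} {n : Fin s → ℕ} (m : Fin r → ℕ)
    (d : Fin r → Fin s → ℕ) (F : Fin r → MvPolynomial (Var n) (𝓞 K))
    (v : HeightOneSpectrum (𝓞 K)) : Prop :=
  (∀ j, (m j : 𝓞 K) ∉ v.asIdeal) ∧ Smooth m (reduction v F) ∧
    Ordinary m d (Ideal.absNorm v.asIdeal) (reduction v F)

open Classical in
/-- Modulo almost all places of prime norm there are few members without good ordinary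
reduction. -/
def FewModPlaces {K : Type} [Field K] [NumberField K] {s r : ℕ} {n : Fin s → ℕ} (m : Fin r → ℕ)
    (d : Fin r → Fin s → ℕ) {σ : Type} [Fintype σ]
    (f : Fin r → MvPolynomial (Var n) (MvPolynomial σ (𝓞 K))) : Prop :=
  ∀ ε : ℝ, 0 < ε → {v : HeightOneSpectrum (𝓞 K) | (Ideal.absNorm v.asIdeal).Prime ∧
    ε * (Ideal.absNorm v.asIdeal : ℝ) ^ Fintype.card σ <
      (((Fintype.piFinset fun _ : σ => range (Ideal.absNorm v.asIdeal)).filter
        fun t => ¬ GoodOrdinary m d (member f t) v).card : ℝ)}.Finite

/-- Almost all members have good ordinary reduction at the proportion `1 - η` of all places, at all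
scales between `Q₀` and `Q₁`. -/
def AllScales {K : Type} [Field K] [NumberField K] {s r : ℕ} {n : Fin s → ℕ} (m : Fin r → ℕ)
    (d : Fin r → Fin s → ℕ) {σ : Type} [Fintype σ]
    (f : Fin r → MvPolynomial (Var n) (MvPolynomial σ (𝓞 K))) : Prop :=
  ∀ η : ℝ, 0 < η → ∀ θ : ℝ, 0 < θ → θ < 1 → ∃ A : ℝ, ∀ X Q₀ Q₁ : ℕ, 1 ≤ Q₀ →
    ({t : σ → ℕ | (∀ i, 1 ≤ t i ∧ t i ≤ X) ∧ ∃ Q, Q₀ ≤ Q ∧ Q ≤ Q₁ ∧
      (Nat.card {v : HeightOneSpectrum (𝓞 K) // Ideal.absNorm v.asIdeal ≤ Q ∧
        GoodOrdinary m d (member f t) v} : ℝ) <
      (1 - η) * Nat.card {v : HeightOneSpectrum (𝓞 K) //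
        Ideal.absNorm v.asIdeal ≤ Q}}.ncard : ℝ) ≤
    A * ((X : ℝ) ^ Fintype.card σ * (Q₀ : ℝ) ^ (θ - 1) +
      (X : ℝ) ^ (Fintype.card σ - 1) * (Q₁ : ℝ) ^ (1 + θ))

/-- For one parameter: all members but `O(Q₁)` have good ordinary reduction at the proportion
`1 - η` of all places, at the proportion `1 - η` of the scales between `Q₀` and `Q₁`. -/
def MostScales {K : Type} [Field K] [NumberField K] {s r : ℕ} {n : Fin s → ℕ} (m : Fin r → ℕ)
    (d : Fin r → Fin s → ℕ) {σ : Type}
    (f : Fin r → MvPolynomial (Var n) (MvPolynomial σ (𝓞 K))) : Prop :=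
  ∀ η δ : ℝ, 0 < η → 0 < δ → ∃ C : ℝ, ∀ X Q₀ Q₁ : ℕ, 1 ≤ Q₀ → (X : ℝ) ^ δ * Q₀ ≤ Q₁ →
    ({t : ℕ | (1 ≤ t ∧ t ≤ X) ∧
      (Nat.card {j : ℕ // (Q₀ ≤ 2 ^ j ∧ 2 ^ j ≤ Q₁) ∧
        (1 - η) * Nat.card {v : HeightOneSpectrum (𝓞 K) // Ideal.absNorm v.asIdeal ≤ 2 ^ j} ≤
        (Nat.card {v : HeightOneSpectrum (𝓞 K) // Ideal.absNorm v.asIdeal ≤ 2 ^ j ∧
          GoodOrdinary m d (member f fun _ => t) v} : ℝ)} : ℝ) <
      (1 - η) * Nat.card {j : ℕ // Q₀ ≤ 2 ^ j ∧ 2 ^ j ≤ Q₁}}.ncard : ℝ) ≤ C * Q₁

/-- The exponents of the monomials of multi-degree `D`. -/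
abbrev Mono {s : ℕ} (n D : Fin s → ℕ) :=
  {u : (x : Var n) → Fin (D x.1 + 1) // ∀ b, ∑ i, (u ⟨b, i⟩ : ℕ) = D b}

/-- The indices of the parameters of the family of all `(f_1, …, f_r)` of multi-degrees `m_j d_j`:
an equation, a monomial and an index `a < h`. -/
abbrev Par {s r : ℕ} (n : Fin s → ℕ) (m : Fin r → ℕ) (d : Fin r → Fin s → ℕ) (h : ℕ) :=
  (j : Fin r) × (Mono n (fun b => m j * d j b) × Fin h)

/-- The coefficient `∑_a ω_a t_(j, u, a)` of the generic polynomial. -/
noncomputable def genCoeff {B : Type} [CommRing B] {s r : ℕ} {n : Fin s → ℕ} {m : Fin r → ℕ}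
    {d : Fin r → Fin s → ℕ} {h : ℕ} (ω : Fin h → B) (j : Fin r)
    (u : Mono n (fun b => m j * d j b)) : MvPolynomial (Par n m d h) B :=
  ∑ a, C (ω a) * X ⟨j, u, a⟩

/-- The family of all `(f_1, …, f_r)` of multi-degrees `m_j d_j`: the coefficient of `x ^ u` in `f_j` is
`∑_a ω_a t_(j, u, a)`. -/
noncomputable def all {B : Type} [CommRing B] {s r : ℕ} (n : Fin s → ℕ) (m : Fin r → ℕ)
    (d : Fin r → Fin s → ℕ) {h : ℕ} (ω : Fin h → B) (j : Fin r) :
    MvPolynomial (Var n) (MvPolynomial (Par n m d h) B) :=
  ∑ u, monomial (expo fun x => (u.1 x : ℕ)) (genCoeff ω j u)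

lemma arr_eq {R : Type} [CommRing R] {s : ℕ} {n e : Fin s → ℕ}
    (l : (b : Fin s) → Fin (e b) → Fin (n b + 1) → R) :
    arrangement l = Pool.Agent.H887.CI.arr l := by
  unfold arrangement Pool.Agent.H887.CI.arr
  refine prod_congr rfl fun b _ => prod_congr rfl fun c _ => ?_
  unfold linForm Pool.Agent.Q267.AP.lf
  rw [map_sum]
  refine sum_congr rfl fun i _ => ?_
  rw [map_mul, rename_C, rename_X]

lemma main {K : Type} [Field K] [NumberField K] {s r : ℕ} {n : Fin s → ℕ} (m : Fin r → ℕ)
    (hm : ∀ j, m j = 1 ∨ m j = 2) (d : Fin r → Fin s → ℕ) {σ : Type} [Fintype σ] [Nonempty σ]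
    (f : Fin r → MvPolynomial (Var n) (MvPolynomial σ (𝓞 K)))
    (hf : ∀ j, MultiHom (fun b => m j * d j b) (f j))
    (l : (j : Fin r) → (b : Fin s) → Fin (d j b) → Fin (n b + 1) → AlgebraicClosure K)
    (hl : GeneralPosition l) (harr : HasArrangement m f l)
    (hsm : ∃ τ : σ → K, Smooth m fun j => map (eval₂Hom (algebraMap (𝓞 K) K) τ) (f j)) :
    FewModPlaces m d f ∧ AllScales m d f ∧ (Fintype.card σ = 1 → MostScales m d f) := by
  classical
  have harr' : Pool.Agent.H887.CI.HasArr m f l := by
    unfold HasArrangement at harr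
    simp only [arr_eq] at harr
    exact harr
  have hfew := fun ε hε => Pool.Agent.H887.CI.fewN m hm d f hf l hl harr' hsm ε hε
  have hper := fun (v : HeightOneSpectrum (𝓞 K)) hv t =>
    Pool.Agent.H887.CI.goodO_mod m d f v hv t
  refine ⟨fun ε hε => ?_, fun η hη θ hθ0 hθ1 => ?_, fun hσ η δ hη hδ => ?_⟩
  · refine (hfew ε hε).subset fun v hv => ⟨hv.1, fun h => ?_⟩
    exact absurd (lt_of_lt_of_le hv.2 (le_trans (le_of_eq (by rfl)) h)) (lt_irrefl _)
  · exact Pool.Agent.H887.CI.allscales' (fun v t => Pool.Agent.H887.CI.GoodO m d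
      (Pool.Agent.H887.CI.memb f t) v) hper
      (fun ε hε => (hfew ε hε).subset fun v hv => ⟨hv.1, fun h => hv.2 (le_trans
        (le_of_eq (by congr)) h)⟩) η hη θ hθ0 hθ1
  · refine Pool.Agent.H887.CI.mostscales' (fun v t => Pool.Agent.H887.CI.GoodO m d
      (Pool.Agent.H887.CI.memb f fun _ => t) v) (fun v hv t => hper v hv _) ?_ η δ hη hδ
    intro ε hε
    refine (hfew ε hε).subset fun v hv => ⟨hv.1, fun h => hv.2 ?_⟩
    rw [hσ, pow_one] at h
    refine le_trans ?_ h
    refine Nat.cast_le.mpr ?_
    refine le_trans (le_of_eq (by congr)) (card_le_card_of_injOn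
      (s := (range (Ideal.absNorm v.asIdeal)).filter fun t => ¬ Pool.Agent.H887.CI.GoodO m d
      (Pool.Agent.H887.CI.memb f fun _ => t) v) (fun (t : ℕ) (_ : σ) => t) ?_ ?_)
    · intro t ht
      have ht' := mem_filter.mp (mem_coe.mp ht)
      rw [mem_coe, mem_filter, Fintype.mem_piFinset]
      exact ⟨fun _ => ht'.1, ht'.2⟩
    · intro a _ b _ hab
      exact congrFun hab (Classical.arbitrary σ)

/-- **Ordinary reduction of almost all complete intersections and double covers.** See above. -/
theorem result :
    -- families through an arrangement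
    (∀ (K : Type) [Field K] [NumberField K] (s r : ℕ) (n : Fin s → ℕ) (m : Fin r → ℕ)
      (d : Fin r → Fin s → ℕ), (∀ j, m j = 1 ∨ m j = 2) →
      ∀ (σ : Type) [Fintype σ] [Nonempty σ]
      (f : Fin r → MvPolynomial (Var n) (MvPolynomial σ (𝓞 K))),
      (∀ j, MultiHom (fun b => m j * d j b) (f j)) →
      ∀ l : (j : Fin r) → (b : Fin s) → Fin (d j b) → Fin (n b + 1) → AlgebraicClosure K,
      GeneralPosition l → HasArrangement m f l →
      (∃ τ : σ → K, Smooth m fun j => map (eval₂Hom (algebraMap (𝓞 K) K) τ) (f j)) →
      FewModPlaces m d f ∧ AllScales m d f ∧ (Fintype.card σ = 1 → MostScales m d f)) ∧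
    -- all complete intersections
    (∀ (K : Type) [Field K] [NumberField K] (s r : ℕ) (n : Fin s → ℕ) (m : Fin r → ℕ)
      (d : Fin r → Fin s → ℕ), 0 < r → (∀ j, m j = 1 ∨ m j = 2) →
      ∀ (h : ℕ) (ω : Fin h → 𝓞 K), (∃ a, ω a ≠ 0) →
      FewModPlaces m d (all n m d ω) ∧ AllScales m d (all n m d ω)) := by
  refine ⟨?_, ?_⟩
  · intro K _ _ s r n m d hm σ _ _ f hf l hl harr hsm
    exact main m hm d f hf l hl harr hsm
  · intro K _ _ s r n m d hr hm h ω hω
    obtain ⟨τ, hτ⟩ := Pool.Agent.H887.CI.exists_arr n m d ω hω
    obtain ⟨a, ha⟩ := hω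
    obtain ⟨u, -⟩ := Pool.Agent.H887.CI.mem_uexp (n := n) (D := fun b => m ⟨0, hr⟩ * d ⟨0, hr⟩ b)
      (Finsupp.equivFunOnFinite.symm fun x => if x.2 = 0 then m ⟨0, hr⟩ * d ⟨0, hr⟩ x.1 else 0)
      (by
        intro b
        change ∑ i, (if i = 0 then m ⟨0, hr⟩ * d ⟨0, hr⟩ b else 0) = _
        rw [Finset.sum_ite_eq' univ (0 : Fin (n b + 1)), if_pos (mem_univ _)])
    have hne : Nonempty (Par n m d h) :=
      ⟨⟨⟨0, hr⟩, u, a⟩⟩
    have h1 := main m hm d (all n m d ω) (Pool.Agent.H887.CI.ufam_mh ω)
      (Pool.Agent.H887.CI.vl n d (AlgebraicClosure K))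
      (fun b ρ hρ => Pool.Agent.H887.CI.vl_pos _ b ρ hρ)
      (Or.inl ⟨τ, fun j => by rw [arr_eq]; exact hτ j⟩)
      (Pool.Agent.H887.CI.exists_smooth ω ⟨a, ha⟩)
    exact ⟨h1.1, h1.2.1⟩

end Pool.Agent.Results.MP_17d720_ag.CompleteIntersections
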