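import Pool.Agent.H367.OS.GPlain

/-!
# Density of primes of ordinary reduction and single pieces of one sequence of cubics

A relation `r` of size `m` is one of the equations `x_i x_j = x_l`, `x_i + x_j = x_l`, `x_i = 1` with
`i, j, l < m`; the relations are numbered, the number of `r` is `ν(r)` (`relNum`). Let `G_m` be the
following polynomial with integral coefficients (`univG ℤ m`). There are variables `x_i` and `z_ij` for
`i, j < m`, a variable `c_r` for every relation `r`, and variables `y_{r,l}` for all relations `r` and
`l < (m + 1) 2 ^ ν(r)`. The equations (`eqnG`) are

  `z_ij - x_i x_j`,  `c_r ^ 2 - c_r`,  `c_r ρ_r`,  `(1 - c_r) y_{r,l}`,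

where `ρ_r` is the linear polynomial `z_ij - x_l`, `x_i + x_j - x_l` or `x_i - 1` of the relation.
`G_m` is the sum of the equations multiplied by further variables `t_e`, one for each equation. It has
degree three. Let `C_m` be the affine cubic hypersurface `G_m = 1` (`cubG R m` over the ring `R`); it is
smooth over the integers.

Let `M` be the category of motives over `ℚ` (motivated cycles), a semisimple abelian category with
Tate twists `N ↦ N(a)`. For a separated scheme `X` of finite type over `ℚ` let `D.G w j X = Gr^W_w
H^j_c(X)` be the part of weight `w` of the cohomology with compact supports, a motive over `ℚ`; for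
smooth projective `Y` it is `h^j(Y)` if `j = w`, and zero otherwise.

For a motive `N` over `ℚ` let `ord N` be the set of the prime numbers `p` such that `N` has good
reduction at `p` (in the sense that its `p`-adic realization is crystalline at `p`) and is ordinary:
the Newton polygon of Frobenius is the Hodge polygon of `N`. If `N` is a direct factor of `N'`, it is
ordinary at all primes in `ord N'` except finitely many (the Newton polygons of the two factors lie on
or above their Hodge polygons), and Tate twists do not matter; see `IsPlaces`. `PosDens S` says that
the set `S` of prime numbers has positive lower density.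

For a number field `K` and a smooth projective scheme `X` over `K` let `ordinary K X` be the set of the
places of `K` at which `X` has good ordinary reduction. `Q1 ordinary K X` says that its lower density is
positive. The statements are related as follows (hypothesis `Describes`).

* For `Y` over `ℚ` and each `i`, the primes of good ordinary reduction of `Y` are in `ord (h^i(Y))`, except
  finitely many.
* For every `X` over `K` there are a smooth projective scheme `Y` over `ℚ` and an `i` such that question Q1
  for `X` follows if `ord (h^i(Y))` has positive lower density. Let `B` be an abelian variety over `ℚ`, with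
  complex multiplication after an extension, that is ordinary only at primes which split completely in
  `K` (up to finitely many), `E` an elliptic curve over `ℚ`, and `Y = X × B ^ r × E ^ s` (over `ℚ`, where
  `r`, `s` are large). A tensor product of two motives is ordinary at `p` if and only if both are
  (compare the sums of the squares of the slopes), and `h^i(Y)` contains all
  `h^a(X) ⊗ h^1(B) ⊗ h^1(E) ^ {⊗ (i - a - 1)}`. If `p` is in `ord (h^i(Y))`, it splits completely in `K`,
  and `X` is ordinary at the places above `p`.

**Theorem.** Let `E_m` be the number of the equations, and for `N ∈ ℕ` let `e = (m + 1) N + E_m - 1`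
(`esh m N`).

(1) Question Q1 has a positive answer for all number fields `K` and all smooth projective `X` over `K`
if and only if for infinitely many `m` the sets of the ordinary primes of the single motives
`Gr^W_{j-1} H^j_c(C_m)` have positive lower density, for all `j`.

(2) In each degree: the sets of the ordinary primes of `h^w(Y)` have positive lower density for all
smooth projective `Y` over `ℚ` if and only if for infinitely many `m` this is true for the single
motives `Gr^W_{w+2e} H^{w+2e+1}_c(C_m)`, for all `N`. For `w = 1` this is the question for abelian
varieties over `ℚ`.

(3) The hypersurfaces `C_m` decide the statement for the pieces of the cohomology (`DecidesPlain`). For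
every affine scheme `Spec B` of finite type over `ℚ` and all large `m` there is an `N` such that for
`0 ≤ w ≤ 2 m + 1` and all `j` the statement for `Gr^W_w H^j_c(Spec B)` is equivalent to the one for
`Gr^W_{w+2e} H^{j+2e+1}_c(C_m)`. For every smooth projective `Y` over `ℚ`, every `d` and all large `m`
there is an `e'` such that for all `i ≤ d` the statement for `h^i(Y)` is equivalent to the one for
`Gr^W_{i+2e'} H^{i+2e'+1}_c(C_m)`. The statements for the pieces of one `C_m` imply those for all pieces
of a given separated scheme `X` of finite type.

(4) `G_m` has integral coefficients and degree at most three, and `C_m` is smooth over all rings.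

The hypotheses on the motives are standard (`IsMot`): exact sequences, affine bundles, disjoint unions,
the cohomology of affine spaces, the weights of `H^j_c(X)` are between `0` and `2 dim X`, monomorphisms
split, `Gr^W_w H^j_c(X)` is a direct factor of `h^w(Y)` for some smooth projective `Y` (it is a
subquotient, by the weight spectral sequence), and every smooth projective scheme has an affine bundle
whose total space is affine (Jouanolou).

Idea of the proof. The projection of `C_m` to the affine space with the coordinates `x, z, c, y` is an
affine bundle over the complement of the zero set `W_m` of the equations. The scheme `W_m` is the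
disjoint union, over all sets `s` of relations (`c_r = 1` for `r ∈ s` and `c_r = 0` for the others), of
the products `X_s × 𝔸 ^ ((m + 1) N(s))`, where `X_s` is the affine scheme defined by the relations in
`s` and `N(s) = ∑_{r ∈ s} 2 ^ ν(r)`. The numbers `N(s)` are different, and the weights of the
cohomology of `X_s` are between `0` and `2 m`. So the part of weight `w + 2 (m + 1) N(s)`,
`0 ≤ w ≤ 2 m + 1`, of the cohomology of `W_m` is the twist of the part of weight `w` of the cohomology of
`X_s`, and it is different from the weight of the cohomology of the affine space. Every affine scheme of
finite type over a prime field is an `X_s`, for all large `m`. The pieces of the cohomology of an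
arbitrary scheme are direct factors of those of a disjoint union of affine schemes.

The universal system of relations is the one of helper854 (`Pool.Agent.H854.SQ`).
-/

set_option autoImplicit false

open CategoryTheory CategoryTheory.Limits AlgebraicGeometry Pool.Agent.Y116.UV Pool.Agent.Z125.UN
  Pool.Agent.Q193.LT Pool.Agent.H854.SQ Pool.Agent.H367.OS
  NumberField IsDedekindDomain

universe v u



namespace Pool.Agent.Results.MP_17d720_ag.PiecesOfOneSequence

/-- The set `S` of places of the number field `K` has positive lower density. -/
def PositiveDensity (K : Type) [Field K] [NumberField K] (S : Set (HeightOneSpectrum (𝓞 K))) : Prop :=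
  ∃ c : ℝ, 0 < c ∧ ∀ᶠ n : ℕ in Filter.atTop,
    c * ({v : HeightOneSpectrum (𝓞 K) | Ideal.absNorm v.asIdeal ≤ n}.ncard : ℝ) ≤
      ((S ∩ {v : HeightOneSpectrum (𝓞 K) | Ideal.absNorm v.asIdeal ≤ n}).ncard : ℝ)

/-- The places of good ordinary reduction of `X` have positive lower density. -/
def Q1 (ordinary : ∀ (K : Type) [Field K] [NumberField K], Sch K → Set (HeightOneSpectrum (𝓞 K)))
    (K : Type) [Field K] [NumberField K] (X : Sch K) : Prop :=
  PositiveDensity K (ordinary K X)

/-- The relation of question Q1 with motives over `ℚ`: if the question has a positive answer for `Y` over
`ℚ`, the sets of the ordinary primes of all `h^i(Y)` have positive lower density, and for every `X` over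
`K` the statement follows from this for one degree of one smooth projective scheme over `ℚ`. -/
structure Describes {M : Type u} [Category.{v} M] (D : Pieces ℚ M) (ord : M → Set ℕ)
    (ordinary : ∀ (K : Type) [Field K] [NumberField K], Sch K → Set (HeightOneSpectrum (𝓞 K))) :
    Prop where
  rational : ∀ Y : Sch ℚ, SmoothProj Y → Q1 ordinary ℚ Y → ∀ i : ℤ, PosDens (ord (D.G i i Y))
  reduce : ∀ (K : Type) [Field K] [NumberField K] (X : Sch K), SmoothProj X →
    ∃ (Y : Sch ℚ) (i : ℤ), SmoothProj Y ∧ (PosDens (ord (D.G i i Y)) → Q1 ordinary K X)

/-- **Density of primes of ordinary reduction and single pieces of one sequence of cubic hypersurfaces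
over the integers.** See the explanations above. -/
theorem result {M : Type u} [Category.{v} M] [Abelian M] {D : Pieces ℚ M} (h : IsMot D)
    {ord : M → Set ℕ} (ho : IsPlaces D ord)
    {ordinary : ∀ (K : Type) [Field K] [NumberField K], Sch K → Set (HeightOneSpectrum (𝓞 K))}
    (describes : Describes D ord ordinary) :
    (AllNF (Q1 ordinary) ↔ ∃ᶠ m in Filter.atTop, ∀ j : ℤ,
      PosDens (ord (D.G (j - 1) j (cubG ℚ m)))) ∧
    (∀ w : ℕ, (∀ Y : Sch ℚ, SmoothProj Y → PosDens (ord (D.G w w Y))) ↔
      ∃ᶠ m in Filter.atTop, ∀ N : ℕ,
        PosDens (ord (D.G (w + 2 * esh m N) (w + 2 * esh m N + 1) (cubG ℚ m)))) ∧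
    DecidesPlain D (Large PosDens ord) ∧
    ∀ m : ℕ, (univG ℤ m).totalDegree ≤ 3 ∧
      ∀ (R : Type) [CommRing R], MvPolynomial.map (Int.castRingHom R) (univG ℤ m) = univG R m ∧
        Smooth (cubG R m).hom := by
  have hd := decides_large isPrimeField_rat h ho large_posDens
  have h1 := hd.all.out 1 0
  refine ⟨Iff.trans ⟨?_, ?_⟩ h1, fun w => (hd.weight w).out 1 0, hd, cubG_facts⟩
  · exact fun g Y hY i => describes.rational Y hY (g ℚ Y hY) i
  · intro g K _ _ X hX
    obtain ⟨Y, i, hY, h2⟩ := describes.reduce K X hX
    exact h2 (g Y hY i)

end Pool.Agent.Results.MP_17d720_ag.PiecesOfOneSequence
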